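import Pool.Agent.T9h36.N1.Spec
import Pool.Agent.T9h48.NK.TrCore

/-!
# Project NK, slope 1: second copy of the assembly
-/

set_option autoImplicit false

open Set
open scoped RealInnerProductSpace

namespace Pool.Agent.T9h18.N1

open Pool.Agent.T9h98.DC Pool.Agent.T9h98.NK Pool.Agent.T9h44.NK Pool.Agent.T9h46.NK Pool.Agent.T9h36.N1

theorem few_mono {d : ℕ} {P : Set (E d)} {H : Subgroup (E d ≃ₗᵢ[ℝ] E d)} {a b : ℕ} (hab : a ≤ b)
    (h : Few a H P) : Few b H P := by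
  intro Φ
  obtain ⟨i, j, hij, g, hg, hl⟩ := h fun l => Φ (Fin.castLE (by omega) l)
  exact ⟨_, _, fun hc => hij (Fin.castLE_injective _ hc), g, hg, hl⟩

theorem dat (hI : S_INV) (hO : S_IOTA) {d : ℕ} {P : Set (E (d + 1))}
    {H : Subgroup (E (d + 1) ≃ₗᵢ[ℝ] E (d + 1))} (hP : IsPolytope P) (hH : Pres H P)
    (v : E (d + 1)) (hv : Vx P v) : ∃ n ι, Dat P H v n ι := by
  obtain ⟨a, ha, hs, hfix⟩ := hI (d + 1) P v H hP.1 hv (exists_ne hP v) hH
  obtain ⟨ι, hι, -⟩ := hO d a ha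
  exact ⟨a, ι, hv, hs, ha, hι, hfix⟩

theorem pt_one (hF : S_FACES) {d : ℕ} {P : Set (E d)} {H : Subgroup (E d ≃ₗᵢ[ℝ] E d)}
    (hP : IsPolytope P) (h : ¬ NT P H) : PT 1 H P := by
  intro Φ Ψ
  obtain ⟨-, -, -, -, -, -, h0, -⟩ := hF d P hP.1
  obtain ⟨v, hv⟩ := h0 (Φ.face 0) (Φ.isFace 0) (by rw [Φ.dim]; rfl)
  obtain ⟨w, hw⟩ := h0 (Ψ.face 0) (Ψ.isFace 0) (by rw [Ψ.dim]; rfl)
  have hv' : Vx P v := by
    change IsFace P {v}
    rw [← hv]
    exact Φ.isFace 0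
  have hw' : Vx P w := by
    change IsFace P {w}
    rw [← hw]
    exact Ψ.isFace 0
  by_contra hcon
  apply h
  refine ⟨v, w, hv', hw', fun g hg hgv => hcon ⟨g, hg, fun i => ?_⟩⟩
  have hi : i = 0 := Subsingleton.elim _ _
  rw [hi, hv, hw, image_singleton, hgv]

theorem nt_ex {d : ℕ} {P : Set (E d)} {H : Subgroup (E d ≃ₗᵢ[ℝ] E d)} (h : NT P H) (v : E d) :
    ∃ w, Vx P w ∧ ∀ h ∈ H, h v ≠ w := by
  obtain ⟨v₀, w₀, hv₀, hw₀, hne⟩ := h
  by_contra hcon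
  push Not at hcon
  obtain ⟨g1, hg1, e1⟩ := hcon v₀ hv₀
  obtain ⟨g2, hg2, e2⟩ := hcon w₀ hw₀
  apply hne (g2 * g1⁻¹) (H.mul_mem hg2 (H.inv_mem hg1))
  change g2 (g1.symm v₀) = w₀
  rw [← e1, g1.symm_apply_apply, e2]

/-- **UP** -/
theorem up (hF : S_FACES) (hVF : S_VF) (hI : S_INV) (hO : S_IOTA) (hT : S_TR) (hM : S_MONO)
    (hS : S_STEP) : S_UP := by
  intro k N L N₀ hN hL hN0 hk
  have key : ∀ (j n : ℕ), N + j ≤ n → ∀ (P : Set (E (n + 1)))
      (H : Subgroup (E (n + 1) ≃ₗᵢ[ℝ] E (n + 1))), IsPolytope P → Pres H P → Few k H P →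
      Good P H ∨ PT (j + 1) H P := by
    intro j
    induction j with
    | zero =>
      intro n hn P H hP hH hFew
      by_cases hnt : NT P H
      · exact Or.inl (hk n (by omega) P H hP hH hFew hnt)
      · exact Or.inr (pt_one hF hP hnt)
    | succ j ih =>
      intro n hn P H hP hH hFew
      obtain ⟨m, rfl⟩ : ∃ m, n = m + 1 := ⟨n - 1, by omega⟩
      by_cases hnt : NT P H
      · exact Or.inl (hk _ (by omega) P H hP hH hFew hnt)
      have hvt : ∀ v w, Vx P v → Vx P w → ∃ h ∈ H, h v = w := by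
        intro v w hv hw
        by_contra hcon
        push Not at hcon
        exact hnt ⟨v, w, hv, hw, hcon⟩
      by_cases hex : ∃ (v a : E (m + 1 + 1)) (ι : E (m + 1) →ₗᵢ[ℝ] E (m + 1 + 1)), Dat P H v a ι ∧
          PT (j + 1) (figH H v ι) (fig v a ι P)
      · obtain ⟨v, a, ι, ⟨hv, hs, ha, hι, hfix⟩, hpt⟩ := hex
        right
        obtain ⟨-, -, t3, -, -⟩ := hT (m + 1) P H v a ι hP hH hv hs ha hι hfix
        exact t3 (j + 1) (fun w hw => hvt v w hv hw) hpt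
      · left
        apply hS (m + 1) P H (by omega) hP hH
        intro v hv
        obtain ⟨a, ι, hD⟩ := dat hI hO hP hH v hv
        obtain ⟨-, hs, ha, hι, hfix⟩ := id hD
        refine ⟨a, ι, hs, ha, hι, hfix, ?_⟩
        obtain ⟨t1, -, -, t4, -⟩ := hT (m + 1) P H v a ι hP hH hv hs ha hι hfix
        have hfig := (hVF (m + 1) P v a ι hP hv hs ha hι).1
        rcases ih m (by omega) _ _ hfig t1 (t4 k hFew) with h | h
        · exact h
        · exact absurd ⟨v, a, ι, hD, h⟩ hex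
  intro n hn P H hP hH hFew
  rcases key L n hn P H hP hH hFew with h | h
  · exact h
  · exact Pool.Agent.T9h46.NK.good_of_pt hF hM (L + 1) (by omega) (by omega) hP
      (hL n (by omega) P H hP hH h) h

/-- all neighbours of `w` are equivalent to `w`: transitive -/
theorem trans_of_nbr (hC : S_CONN) {d : ℕ} {P : Set (E (d + 1))}
    {H : Subgroup (E (d + 1) ≃ₗᵢ[ℝ] E (d + 1))} (hP : IsPolytope P) (hH : Pres H P)
    (hadj : ∀ h ∈ H, ∀ u u', Adj P u u' → Adj P (h u) (h u'))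
    (w : E (d + 1)) (hw : Vx P w) (h : ∀ y, Adj P w y → ∃ g ∈ H, g w = y) : ¬ NT P H := by
  intro hnt
  obtain ⟨u, hu, hne⟩ := nt_ex hnt w
  have := hC d P hP {u | ∃ g ∈ H, g w = u} ⟨w, ⟨1, H.one_mem, rfl⟩, hw⟩ (by
    rintro x ⟨g, hg, rfl⟩ y hx hxy
    have h1 : Adj P (g⁻¹ (g w)) (g⁻¹ y) := hadj g⁻¹ (H.inv_mem hg) _ _ hxy
    have e1 : g⁻¹ (g w) = w := g.symm_apply_apply w
    rw [e1] at h1
    obtain ⟨g', hg', e2⟩ := h _ h1
    refine ⟨g * g', H.mul_mem hg hg', ?_⟩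
    change g (g' w) = y
    rw [e2]
    exact g.apply_symm_apply y) u hu
  obtain ⟨g, hg, e⟩ := this
  exact hne g hg e

/-- isometries of `P` preserve adjacency -/
theorem adj_im {d : ℕ} {P : Set (E d)} (h : E d ≃ₗᵢ[ℝ] E d) (hP : h '' P = P) {v y : E d}
    (ha : Adj P v y) : Adj P (h v) (h y) := by
  obtain ⟨h1, h2⟩ := ha
  refine ⟨fun h3 => h1 (h.injective h3), ?_⟩
  have h4 := Pool.Agent.T9h48.NK.face_image h hP h2
  have h5 : h '' segment ℝ v y = segment ℝ (h v) (h y) :=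
    image_segment ℝ (h.toLinearEquiv.toLinearMap.toAffineMap) v y
  rwa [h5] at h4

/-- the neighbours of `w` are equivalent if the figure is transitive -/
theorem nbr_eq (hF : S_FACES) (hNB : S_NB) {d : ℕ} {P : Set (E (d + 1))}
    {H : Subgroup (E (d + 1) ≃ₗᵢ[ℝ] E (d + 1))} (hP : IsPolytope P) (hH : Pres H P)
    {w n : E (d + 1)} {ι : E d →ₗᵢ[ℝ] E (d + 1)} (hD : Dat P H w n ι)
    (hnt : ¬ NT (fig w n ι P) (figH H w ι)) {y y' : E (d + 1)} (hy : Adj P w y) (hy' : Adj P w y') :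
    ∃ h ∈ H, h w = w ∧ h y = y' := by
  obtain ⟨hv, hs, ha, hι, hfix⟩ := hD
  obtain ⟨nb1, nb2, nb3, nb4⟩ := hNB d P w n ι hP hv hs ha hι
  obtain ⟨x, hx, hxy⟩ := nb1 y hy
  obtain ⟨x', hx', hxy'⟩ := nb1 y' hy'
  by_contra hcon
  apply hnt
  refine ⟨x, x', hx, hx', ?_⟩
  rintro k ⟨h, hh, hhw, hk⟩ hkx
  apply hcon
  refine ⟨h, hh, hhw, ?_⟩
  have h1 : Adj P w (h y) := by
    have := adj_im h (hH h hh) hy
    rwa [hhw] at this
  have hp : Pr w n ι (h y) x' := by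
    obtain ⟨t, ht, he⟩ := hxy
    refine ⟨t, ht, ?_⟩
    calc h y - w = h y - h w := by rw [hhw]
      _ = h (y - w) := by rw [map_sub]
      _ = t • (n + ι x') := by
        rw [he, map_smul, map_add, hfix h hh hhw, ← hk, hkx]
  exact (nb3 _ _ _ _ h1 hy' hp hxy').1 rfl

/-- there is a flag -/
theorem not_few_zero (hF : S_FACES) (hE : S_EXT) {d : ℕ} {P : Set (E (d + 1))}
    {H : Subgroup (E (d + 1) ≃ₗᵢ[ℝ] E (d + 1))} (hP : IsPolytope P) : ¬ Few 0 H P := by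
  intro h
  obtain ⟨-, -, -, -, h5, -⟩ := hF (d + 1) P hP.1
  have hne : P.Nonempty := hP.2.mono interior_subset
  obtain ⟨v, hv⟩ := (h5 hne).2
  obtain ⟨Φ, -⟩ := hE d P v hP hv
  obtain ⟨i, j, hij, -⟩ := h fun _ => Φ
  exact hij (Subsingleton.elim (α := Fin 1) i j)

/-- **ST** -/
theorem st (hF : S_FACES) (hVF : S_VF) (hI : S_INV) (hO : S_IOTA) (hNB : S_NB) (hCONN : S_CONN)
    (hE : S_EXT) (hT : S_TR) (hM : S_MONO) (hS : S_STEP) (hLC : S_LOCC) (hN1 : S_N1)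
    (hN5 : S_N5) (hN6 : S_N6) (hN4 : S_N4) : S_ST := by
  intro k N L N₀ N₁ hN hN0 hN1' hN9 hL hMKL hMK hk n hn P H hP hH hFew hnt
  obtain ⟨m, rfl⟩ : ∃ m, n = m + 1 := ⟨n - 1, by omega⟩
  apply hS (m + 1) P H (by omega) hP hH
  intro w hw
  obtain ⟨a, ι, hD⟩ := dat hI hO hP hH w hw
  obtain ⟨-, hs, ha, hι, hfix⟩ := id hD
  refine ⟨a, ι, hs, ha, hι, hfix, ?_⟩
  by_contra hG
  obtain ⟨t1, -, -, t4, t5⟩ := hT (m + 1) P H w a ι hP hH hw hs ha hι hfix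
  have hfig := (hVF (m + 1) P w a ι hP hw hs ha hι).1
  have hFew' := t5 k hFew (nt_ex hnt w)
  by_cases hnt' : NT (fig w a ι P) (figH H w ι)
  · exact hG (hk m (by omega) _ _ hfig t1 hFew' hnt')
  have hpt1 := pt_one hF hfig hnt'
  -- a neighbour
  obtain ⟨v, hwv⟩ : ∃ v, Adj P w v := by
    obtain ⟨-, -, -, -, h5, -⟩ := hF (m + 1) _ hfig.1
    obtain ⟨x, hx⟩ := (h5 (hfig.2.mono interior_subset)).2
    obtain ⟨-, nb2, -⟩ := hNB (m + 1) P w a ι hP hw hs ha hι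
    obtain ⟨y, hy, -⟩ := nb2 x hx
    exact ⟨y, hy⟩
  have hv : Vx P v := by
    obtain ⟨-, -, -, -, -, -, -, -, hA, -⟩ := hF (m + 1 + 1) P hP.1
    exact (hA w v hwv).2.1
  obtain ⟨b, ι', hDv⟩ := dat hI hO hP hH v hv
  obtain ⟨-, hs', hb, hι', hfix'⟩ := id hDv
  obtain ⟨t1', -, -, t4', -⟩ := hT (m + 1) P H v b ι' hP hH hv hs' hb hι' hfix'
  have hfig' := (hVF (m + 1) P v b ι' hP hv hs' hb hι').1
  have hne : ∀ h ∈ H, h v ≠ w := by
    intro h hh hvw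
    apply trans_of_nbr hCONN hP hH (fun g hg _ _ => adj_im g (hH g hg)) w hw ?_ hnt
    intro y hy
    obtain ⟨g, hg, -, hgy⟩ := nbr_eq hF hNB hP hH hD hnt' hwv hy
    refine ⟨g * h⁻¹, H.mul_mem hg (H.inv_mem hh), ?_⟩
    change g (h.symm w) = y
    rw [← hvw, h.symm_apply_apply, hgy]
  have hnF : ¬ Few (k - L) (figH H w ι) (fig w a ι P) := by
    intro hcon
    by_cases hkL : L ≤ k
    · exact hG (hMK (k - L) (by omega) (by omega) m (by omega) _ _ hfig t1 hcon)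
    · have : k - L = 0 := by omega
      rw [this] at hcon
      exact not_few_zero hF hE hfig hcon
  have hFv : Few L (figH H v ι') (fig v b ι' P) :=
    hN1 (m + 1) P H v b w a ι' ι L (k - L) hP hH hDv hD hne (few_mono (by omega) hFew) hnF
  have hGv : Good (fig v b ι' P) (figH H v ι') := hMKL m (by omega) _ _ hfig' t1' hFv
  by_cases hC : RegC (fig v b ι' P)
  · obtain ⟨g, hg⟩ := hLC (m + 1) P H v b ι' (by omega) hP hH hv ⟨hs', hb, hι', hfix', hGv⟩ hC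
    exact hN6 (m + 1) P H w a v ι g (by omega) hP hH hD hwv hg hpt1
  have hSO : RegS (fig v b ι' P) ∨ RegO (fig v b ι' P) := by
    rcases hGv.1 with h | h | h
    · exact Or.inl h
    · exact Or.inr h
    · exact absurd h hC
  have hPTv : PT (L + 1) (figH H v ι') (fig v b ι' P) :=
    hN4 L N₁ hN9 hMKL L m (by omega) _ _ hfig' t1' hFv hSO
  have hPTw := hN5 (m + 1) P H v b w a ι' ι L hP hH hDv hD hwv hPTv hpt1
  exact hG (Pool.Agent.T9h46.NK.good_of_pt hF hM (L + 1) (by omega) (by omega) hfig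
    (hL m (by omega) _ _ hfig t1 hPTw) hPTw)

end Pool.Agent.T9h18.N1
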